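import Pool.Agent.Helper63.N3.Ineq
import Pool.Agent.Helper24.CU.Numeric3

/-!
# Almost cubic lower bound for the border determinantal complexity of the permanent
-/

set_option autoImplicit false

namespace Pool.Agent.Helper63.N3S

open Pool.Agent.Helper24.SQ

theorem ineq' {n m : ℕ} (h : BorderRep n m) (B d p : ℕ) (hB : 1 ≤ B) (hp : p = 2 ^ B)
    (hd : p = 2 * d) (hn : 60 * p * (B + 1) ^ 2 ≤ n) (hm : 1 ≤ m) :
    (d.factorial : ℝ) ^ (2 * p) ≤
      (4 * Real.exp 1 * m / ((2 * d * p : ℕ) + 2)) ^ (2 * d * p + 2) := by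
  rcases Nat.lt_or_ge d 2 with hd1 | hd2
  · -- `d = 1`
    have h1 : 2 ≤ p := by
      rw [hp]
      calc 2 = 2 ^ 1 := rfl
        _ ≤ 2 ^ B := Nat.pow_le_pow_right (by norm_num) hB
    have h2 : d = 1 := by omega
    subst h2
    have h3 : p = 2 := by omega
    subst h3
    have hmR : (1 : ℝ) ≤ m := by exact_mod_cast hm
    have he := Real.exp_one_gt_d9
    have h6 : (1 : ℝ) ≤ 4 * Real.exp 1 * m / ((2 * 1 * 2 : ℕ) + 2) := by
      rw [le_div_iff₀ (by positivity)]
      push_cast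
      nlinarith
    rw [Nat.factorial_one, Nat.cast_one, one_pow]
    exact one_le_pow₀ h6
  · have h1 := ineq (p := p) (Q := B + 1) hd2 hd.ge (by rw [hp, pow_succ]; omega) (by
      refine le_trans ?_ hn
      have hQ : 1 ≤ (B + 1) * (B + 1) := Nat.mul_pos (Nat.succ_pos _) (Nat.succ_pos _)
      rw [pow_two]
      set q := (B + 1) * (B + 1)
      have h4 : d + 1 ≤ p := by omega
      nlinarith) h
    have h5 : p * (2 * d) = 2 * d * p := by ring
    rw [h5] at h1
    push_cast at h1 ⊢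
    exact h1

/-- The border determinantal complexity of the `n × n` permanent over `ℂ` is at least
`c n ^ 3 / (log n) ^ 6`. -/
theorem final : ∃ c : ℝ, 0 < c ∧ ∀ n m : ℕ, 2 ≤ n → BorderRep n m →
    c * (n : ℝ) ^ 3 / (Real.log n) ^ 6 ≤ m := by
  obtain ⟨c, hc, H⟩ := Pool.Agent.Helper24.CU.numeric3
  refine ⟨c, hc, fun n m hn h => H n m hn (h.pos (by omega)) fun B d p hB hp hd hn' => ?_⟩
  exact ineq' h B d p hB hp hd hn' (h.pos (by omega))

end Pool.Agent.Helper63.N3S
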