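import Pool.Agent.Helper63.N3.Scalar
import Pool.Agent.Helper40.CB.Crit0

/-!
# The counting inequality (scalar labels)
-/

set_option autoImplicit false

namespace Pool.Agent.Helper63.N3S

open Finset MvPolynomial Pool.Agent.Helper24.SQ

/-- The linear part. -/
noncomputable def ellF (d p : ℕ) : MvPolynomial (Option (Fin p × Fin (2 * d))) ℂ :=
  X none + ∑ z : Fin p, C ((-1 : ℂ) ^ d) * ∑ l : Fin (2 * d), X (some (z, l))

theorem ellF_totalDegree (d p : ℕ) : (ellF d p).totalDegree ≤ 1 := by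
  unfold ellF
  refine (totalDegree_add _ _).trans (max_le ?_ ?_)
  · rw [totalDegree_X]
  · refine totalDegree_finsetSum_le fun z _ => ?_
    refine (totalDegree_mul _ _).trans ?_
    rw [totalDegree_C, zero_add]
    refine totalDegree_finsetSum_le fun l _ => ?_
    rw [totalDegree_X]

theorem F0_eq (d p : ℕ) : Pool.Agent.Helper40.CB.F0 ℂ d (Fin p) (Fin (2 * d)) =
    ellF d p + sepPoly p (d + 1) (Fin (2 * d)) := by
  unfold Pool.Agent.Helper40.CB.F0 ellF sepPoly
  rw [sum_add_distrib]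
  ring

/-- The counting inequality. -/
theorem ineq {n m d p Q : ℕ} (hd : 2 ≤ d) (hp : 2 * d ≤ p) (hQ : 2 * p ≤ 2 ^ Q)
    (hn : 3 * ((2 * d + 2 * p) * (Q * Q * 2 + 1) + 2 * (d + 1) * (Q * Q) * 2) +
      2 * (d + 1) * (Q * Q) * 2 ≤ n) (h : BorderRep n m) :
    (d.factorial : ℝ) ^ (2 * p) ≤
      (4 * Real.exp 1 * m / (p * (2 * d) + 2 : ℕ)) ^ (p * (2 * d) + 2) := by
  classical
  have hQ1 : 1 ≤ Q := by
    rcases Nat.eq_zero_or_pos Q with rfl | h0
    · rw [pow_zero] at hQ; omega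
    · exact h0
  obtain ⟨Z, hZ, hcard⟩ := Pool.Agent.Helper40.CB.exists_crit0 (K := ℂ) (Z := Fin p)
    (J := Fin (2 * d)) (Fintype.card_fin _) hd (by exact_mod_cast (by omega : d ≠ 0))
    (Complex.isPrimitiveRoot_exp d (by omega))
  rw [Fintype.card_fin] at hcard
  obtain ⟨P, Z', hP, hZ', hcrit⟩ := limit (ρ := Fin (2 * d)) (fun x => (x : ℕ))
    (fun x => lt_of_lt_of_le x.2 hp) Fin.val_injective (Nat.le_add_left 1 d) hQ1 hQ
    (by rw [Fintype.card_fin]; exact hn) h (ellF d p) (ellF_totalDegree d p) Z (by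
      intro z hz
      rw [← F0_eq]
      exact hZ z hz)
  have hb := crit_bound m P hP Z' hcrit
  rw [hZ', hcard, Fintype.card_prod, Fintype.card_fin, Fintype.card_fin] at hb
  push_cast at hb ⊢
  exact hb

end Pool.Agent.Helper63.N3S
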