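import Pool.Agent.Helper24.SQ.Main

/-!
# The separable polynomial as a limit of projections of the permanent

`ρ` is the set of rows, with labels `r x : Fin L → ℕ` smaller than `p`; the columns are the vectors
with `L` entries smaller than `2 p`.  The variable `X (some (k, x))` is placed at the position
`(x, r x + k)`.
-/

set_option autoImplicit false
set_option linter.unusedSectionVars false

namespace Pool.Agent.Helper63.N3

open Finset MvPolynomial Pool.Agent.Helper24.SQ

/-- Labels. -/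
abbrev Lam (L p : ℕ) : Type := Fin L → Fin p

/-- Columns. -/
abbrev Cc (L p : ℕ) : Type := Fin L → Fin (2 * p)

/-! ### elementary lemmas -/

theorem lagrange {ι : Type} [Fintype ι] (x : ι → ℤ) : ∑ i, ∑ j, (x i - x j) ^ 2 =
    2 * ((Fintype.card ι : ℤ) * ∑ i, x i ^ 2 - (∑ i, x i) ^ 2) := by
  have h : ∀ i j, (x i - x j) ^ 2 = x i ^ 2 - 2 * (x i * x j) + x j ^ 2 := by
    intros; ring
  simp_rw [h, sum_add_distrib, sum_sub_distrib, sum_const, card_univ, ← mul_sum, ← sum_mul]
  simp only [nsmul_eq_mul]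
  rw [← mul_sum]
  ring

theorem zpow_sum {ι : Type} (u : ℂ) (hu : u ≠ 0) (s : Finset ι) (f : ι → ℤ) :
    u ^ (∑ i ∈ s, f i) = ∏ i ∈ s, u ^ f i := by
  classical
  induction s using Finset.induction_on with
  | empty => simp
  | insert a s ha ih => rw [sum_insert ha, prod_insert ha, zpow_add₀ hu, ih]

theorem critPt_smul {ι : Type} [Fintype ι] (F : MvPolynomial (Option ι) ℂ) (c : ℂ) (hc : c ≠ 0)
    (z : Option ι → ℂ) (h : CritPt F z) : CritPt (C c * F) z := by
  obtain ⟨h1, h2, h3, h4⟩ := h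
  refine ⟨?_, ?_, ?_, ?_⟩
  · rw [map_mul, h1, mul_zero]
  · intro v
    rw [pderiv_C_mul, map_mul, h2 v, mul_zero]
  · rw [pderiv_C_mul, map_mul, eval_C]
    exact mul_ne_zero hc h3
  · intro w hw
    apply h4 w
    intro v
    have h5 := hw v
    simp_rw [pderiv_C_mul, map_mul, eval_C, mul_assoc] at h5
    rw [← Finset.mul_sum] at h5
    exact (mul_eq_zero.1 h5).resolve_left hc

section

variable {L p : ℕ} {ρ : Type} [Fintype ρ] [DecidableEq ρ] (r : ρ → Fin L → ℕ)

/-- Displacements. -/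
def del (x : ρ) (c : Cc L p) (j : Fin L) : ℤ := ((c j : ℕ) : ℤ) - (r x j : ℤ)

/-- The variable at a position. -/
noncomputable def ent (x : ρ) (c : Cc L p) : MvPolynomial (Option (Lam L p × ρ)) ℂ :=
  if h : ∀ j, r x j ≤ c j ∧ (c j : ℕ) < r x j + p then
    X (some (fun j => ⟨c j - r x j, by have := h j; omega⟩, x)) else 0

/-- The column of a variable. -/
def col (hr : ∀ x j, r x j < p) (x : ρ) (k : Lam L p) : Cc L p :=
  fun j => ⟨r x j + k j, by have := hr x j; have := (k j).2; omega⟩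

theorem ent_col (hr : ∀ x j, r x j < p) (x : ρ) (k : Lam L p) :
    ent r x (col r hr x k) = X (some (k, x)) := by
  unfold ent
  rw [dif_pos]
  · congr 3
    funext j
    apply Fin.ext
    simp [col]
  · intro j
    simp [col]

theorem ent_ne_zero (hr : ∀ x j, r x j < p) (x : ρ) (c : Cc L p) (h : ent r x c ≠ 0) :
    ∃ k : Lam L p, c = col r hr x k := by
  unfold ent at h
  split_ifs at h with h'
  · refine ⟨fun j => ⟨c j - r x j, by have := h' j; omega⟩, ?_⟩
    funext j
    apply Fin.ext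
    have := h' j
    simp only [col]
    omega
  · exact absurd rfl h

theorem col_del (hr : ∀ x j, r x j < p) (x : ρ) (k : Lam L p) (j : Fin L) :
    del r x (col r hr x k) j = (k j : ℕ) := by
  simp [del, col]

theorem ent_totalDegree (x : ρ) (c : Cc L p) : (ent r x c).totalDegree ≤ 1 := by
  unfold ent
  split_ifs
  · rw [totalDegree_X]
  · simp

/-- The exponent. -/
def EE (T : Finset ρ) (σ : T ↪ Cc L p) : ℤ :=
  ∑ j, ((T.card : ℤ) * ∑ x : T, (del r x.1 (σ x) j) ^ 2 - (∑ x : T, del r x.1 (σ x) j) ^ 2)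

theorem two_EE (T : Finset ρ) (σ : T ↪ Cc L p) :
    2 * EE r T σ = ∑ j, ∑ x : T, ∑ y : T, (del r x.1 (σ x) j - del r y.1 (σ y) j) ^ 2 := by
  unfold EE
  rw [mul_sum]
  refine sum_congr rfl fun j _ => ?_
  rw [lagrange, Fintype.card_coe]

theorem EE_nonneg (T : Finset ρ) (σ : T ↪ Cc L p) : 0 ≤ EE r T σ := by
  have h := two_EE r T σ
  have : 0 ≤ ∑ j, ∑ x : T, ∑ y : T, (del r x.1 (σ x) j - del r y.1 (σ y) j) ^ 2 :=
    sum_nonneg fun j _ => sum_nonneg fun x _ => sum_nonneg fun y _ => sq_nonneg _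
  omega

theorem EE_eq_zero (T : Finset ρ) (σ : T ↪ Cc L p) (h : EE r T σ = 0) (x y : T) (j : Fin L) :
    del r x.1 (σ x) j = del r y.1 (σ y) j := by
  have h1 := two_EE r T σ
  rw [h, mul_zero] at h1
  have h2 := (sum_eq_zero_iff_of_nonneg (fun j _ => sum_nonneg fun x _ => sum_nonneg fun y _ =>
    sq_nonneg _)).1 h1.symm j (mem_univ _)
  have h3 := (sum_eq_zero_iff_of_nonneg (fun x _ => sum_nonneg fun y _ =>
    sq_nonneg _)).1 h2 x (mem_univ _)
  have h4 := (sum_eq_zero_iff_of_nonneg (fun y _ => sq_nonneg _)).1 h3 y (mem_univ _)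
  have h5 := pow_eq_zero_iff (two_ne_zero) |>.1 h4
  linarith

/-- The monomial of a partial matching. -/
noncomputable def GG (T : Finset ρ) (σ : T ↪ Cc L p) : MvPolynomial (Option (Lam L p × ρ)) ℂ :=
  ∏ x : T, ent r x.1 (σ x)

/-- The constant matchings. -/
def sig (hr : ∀ x j, r x j < p) (hinj : Function.Injective r) (T : Finset ρ) (k : Lam L p) :
    T ↪ Cc L p where
  toFun := fun x => col r hr x.1 k
  inj' := by
    intro x y h
    apply Subtype.ext
    apply hinj
    funext j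
    have := congrArg Fin.val (congrFun h j)
    simp only [col] at this
    omega

theorem sum_const_matchings (hr : ∀ x j, r x j < p) (hinj : Function.Injective r) (T : Finset ρ)
    (hT : T.Nonempty) :
    ∑ k : Lam L p, ∏ x ∈ T, (X (some (k, x)) : MvPolynomial (Option (Lam L p × ρ)) ℂ) =
      ∑ σ : T ↪ Cc L p, if EE r T σ = 0 then GG r T σ else 0 := by
  refine Fintype.sum_of_injective (sig r hr hinj T) ?_ _ _ ?_ ?_
  · intro k k' h
    obtain ⟨x, hx⟩ := hT
    have h1 := DFunLike.congr_fun h ⟨x, hx⟩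
    funext j
    apply Fin.ext
    have := congrArg Fin.val (congrFun h1 j)
    simp only [sig, Function.Embedding.coeFn_mk, col] at this
    omega
  · intro σ hσ
    split_ifs with h0
    · by_contra hG
      apply hσ
      have h1 : ∀ x : T, ent r x.1 (σ x) ≠ 0 := by
        intro x hx
        exact hG (prod_eq_zero (mem_univ x) hx)
      choose k hk using fun x : T => ent_ne_zero r hr x.1 (σ x) (h1 x)
      obtain ⟨x₀, hx₀⟩ := hT
      refine ⟨k ⟨x₀, hx₀⟩, ?_⟩
      ext x j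
      have h2 : k ⟨x₀, hx₀⟩ = k x := by
        funext j
        have h3 := EE_eq_zero r T σ h0 ⟨x₀, hx₀⟩ x j
        rw [hk ⟨x₀, hx₀⟩, hk x, col_del, col_del] at h3
        exact Fin.ext (by exact_mod_cast h3)
      rw [hk x, h2]
      rfl
    · rfl
  · intro k
    rw [if_pos]
    · unfold GG
      rw [← prod_coe_sort T]
      refine prod_congr rfl fun x _ => ?_
      exact (ent_col r hr x.1 k).symm
    · unfold EE
      refine sum_eq_zero fun j _ => ?_
      have h1 : ∀ x : T, del r x.1 (sig r hr hinj T k x) j = (k j : ℕ) := fun x =>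
        col_del r hr x.1 k j
      simp_rw [h1]
      rw [sum_const, sum_const, card_univ, Fintype.card_coe]
      simp only [nsmul_eq_mul]
      ring

/-- The separable polynomial. -/
noncomputable def sepPoly (L p s : ℕ) (ρ : Type) [Fintype ρ] [DecidableEq ρ] :
    MvPolynomial (Option (Lam L p × ρ)) ℂ :=
  ∑ k : Lam L p, ∑ T ∈ powersetCard s (univ : Finset ρ), ∏ x ∈ T, X (some (k, x))

/-- The weights. -/
noncomputable def ff (u : ℂ) (s p : ℕ) (K : ℕ) : ℂ := u ^ (-(((K : ℤ) - s * p) ^ 2))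

theorem weight_eq (u : ℂ) (hu : u ≠ 0) (hr : ∀ x j, r x j < p) (T : Finset ρ) (σ : T ↪ Cc L p) :
    (∏ j, ff u T.card p (∑ x : T, ((p - r x.1 j) + (σ x j : ℕ)))) *
      ∏ x : T, u ^ ((T.card : ℤ) * ∑ j, (del r x.1 (σ x) j) ^ 2) = u ^ EE r T σ := by
  unfold ff EE
  rw [← zpow_sum u hu, ← zpow_sum u hu, ← zpow_add₀ hu]
  congr 1
  have h1 : ∀ j, ((∑ x : T, ((p - r x.1 j) + (σ x j : ℕ)) : ℕ) : ℤ) - T.card * p =
      ∑ x : T, del r x.1 (σ x) j := by
    intro j
    have h2 : ∀ x : T, (((p - r x.1 j) + (σ x j : ℕ) : ℕ) : ℤ) = p + del r x.1 (σ x) j := by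
      intro x
      have := hr x.1 j
      unfold del
      push_cast [Nat.cast_sub this.le]
      ring
    rw [Nat.cast_sum, sum_congr rfl fun x _ => h2 x, sum_add_distrib, sum_const, card_univ,
      Fintype.card_coe, nsmul_eq_mul]
    ring
  simp_rw [h1]
  rw [sum_sub_distrib, ← mul_sum, sum_comm, ← mul_sum, sum_neg_distrib]
  ring

end

/-- The shape of the projection of the permanent. -/
def ProjStmt (M L s : ℕ) (ρ γ : Type) [Fintype ρ] [Fintype γ] [DecidableEq ρ]
    (a : ρ → Fin L → ℕ) (b : γ → Fin L → ℕ) : Prop :=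
  ∀ f : Fin L → ℕ → ℂ, (∀ j K, f j K ≠ 0) →
    ∃ (e : Fin M → Fin M → ℂ ⊕ Option (ρ × γ)) (C : ℂ), C ≠ 0 ∧
      ∀ (A : Type) [CommRing A] [Algebra ℂ A] (Y : ρ → γ → A) (l : A),
        (Matrix.of fun i j => (e i j).elim (algebraMap ℂ A)
          fun q => q.elim l fun q => Y q.1 q.2).permanent =
        algebraMap ℂ A C * (algebraMap ℂ A (∏ j, f j 0) * l +
          ∑ T ∈ powersetCard s univ, ∑ σ : T ↪ γ,
            algebraMap ℂ A (∏ j, f j (∑ x : T, (a x.1 j + b (σ x) j))) * ∏ x : T, Y x.1 (σ x))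

theorem limit {M L p s n m : ℕ} {ρ : Type} [Fintype ρ] [DecidableEq ρ] (r : ρ → Fin L → ℕ)
    (hr : ∀ x j, r x j < p) (hinj : Function.Injective r) (hs : 1 ≤ s)
    (hproj : ProjStmt M L s ρ (Cc L p) (fun x j => p - r x j) (fun c j => (c j : ℕ)))
    (hn : M ≤ n) (h : BorderRep n m) (ell : MvPolynomial (Option (Lam L p × ρ)) ℂ)
    (hell : ell.totalDegree ≤ 1) (Z : Finset (Option (Lam L p × ρ) → ℂ))
    (hZ : ∀ z ∈ Z, CritPt (ell + sepPoly L p s ρ) z) :
    ∃ (P : MvPolynomial (Option (Lam L p × ρ)) ℂ) (Z' : Finset (Option (Lam L p × ρ) → ℂ)),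
      DetRep P m ∧ Z'.card = Z.card ∧ ∀ z ∈ Z', CritPt P z := by
  classical
  let κ : Type := Σ T : {T // T ∈ powersetCard s (univ : Finset ρ)}, (T.1 ↪ Cc L p)
  obtain ⟨ε, hε, H⟩ := crit_persist (ell + sepPoly L p s ρ) (fun q : κ => GG r q.1.1 q.2) Z hZ
  obtain ⟨u, hu0, hu1, huε⟩ : ∃ u : ℝ, 0 < u ∧ u < 1 ∧ u < ε :=
    ⟨min (1 / 2) (ε / 2), by positivity, lt_of_le_of_lt (min_le_left _ _) (by norm_num),
      lt_of_le_of_lt (min_le_right _ _) (by linarith)⟩
  have huC : (u : ℂ) ≠ 0 := by exact_mod_cast hu0.ne'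
  obtain ⟨Z₁, hZ₁, hcrit₁⟩ := H (fun q => if EE r q.1.1 q.2 = 0 then 0 else
    (u : ℂ) ^ EE r q.1.1 q.2) (by
      intro q
      split_ifs with h0
      · simpa using hε
      · rw [norm_zpow, Complex.norm_real, Real.norm_eq_abs, abs_of_pos hu0]
        have h1 : 0 < EE r q.1.1 q.2 := lt_of_le_of_ne (EE_nonneg r _ _) (Ne.symm h0)
        refine lt_of_le_of_lt ?_ huε
        calc u ^ EE r q.1.1 q.2 ≤ u ^ (1 : ℤ) :=
              zpow_le_zpow_right_of_le_one₀ hu0 hu1.le (by omega)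
          _ = u := zpow_one u)
  obtain ⟨e, c, hc, hE⟩ := hproj (fun _ K => ff (u : ℂ) s p K) (fun _ K => zpow_ne_zero _ huC)
  set w : ℂ := ∏ _j : Fin L, ff (u : ℂ) s p 0 with hw
  have hw0 : w ≠ 0 := by
    rw [hw, prod_ne_zero_iff]
    intro j _
    exact zpow_ne_zero _ huC
  set Y : ρ → Cc L p → MvPolynomial (Option (Lam L p × ρ)) ℂ := fun x y =>
    C ((u : ℂ) ^ ((s : ℤ) * ∑ j, (del r x y j) ^ 2)) * ent r x y with hY
  set f : Fin M × Fin M → MvPolynomial (Option (Lam L p × ρ)) ℂ := fun q =>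
    (e q.1 q.2).elim (algebraMap ℂ _) fun q => q.elim (C w⁻¹ * ell) fun q => Y q.1 q.2 with hf
  have hfd : ∀ q, (f q).totalDegree ≤ 1 := by
    intro q
    simp only [hf]
    rcases e q.1 q.2 with v | q'
    · simp only [Sum.elim_inl, algebraMap_eq, totalDegree_C, zero_le]
    · rcases q' with _ | q''
      · simp only [Sum.elim_inr, Option.elim_none]
        refine (totalDegree_mul _ _).trans ?_
        rw [totalDegree_C, zero_add]
        exact hell
      · simp only [Sum.elim_inr, Option.elim_some, hY]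
        refine (totalDegree_mul _ _).trans ?_
        rw [totalDegree_C, zero_add]
        exact ent_totalDegree r _ _
  have hF : aeval f (permPoly M) = C c * (ell + sepPoly L p s ρ + ∑ q : κ,
      (if EE r q.1.1 q.2 = 0 then 0 else (u : ℂ) ^ EE r q.1.1 q.2) • GG r q.1.1 q.2) := by
    rw [aeval_permPoly]
    refine (hE (MvPolynomial (Option (Lam L p × ρ)) ℂ) Y (C w⁻¹ * ell)).trans ?_
    rw [algebraMap_eq]
    congr 1
    rw [← mul_assoc, ← C_mul, mul_inv_cancel₀ hw0, C_1, one_mul, add_assoc]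
    congr 1
    rw [Fintype.sum_sigma]
    rw [Finset.sum_coe_sort (powersetCard s (univ : Finset ρ)) (fun T => ∑ σ : T ↪ Cc L p,
      (if EE r T σ = 0 then 0 else (u : ℂ) ^ EE r T σ) • GG r T σ)]
    unfold sepPoly
    rw [sum_comm, ← sum_add_distrib]
    refine sum_congr rfl fun T hT => ?_
    rw [mem_powersetCard] at hT
    rw [sum_const_matchings r hr hinj T (card_pos.1 (by omega)), ← sum_add_distrib]
    refine sum_congr rfl fun σ _ => ?_
    simp only [hY]
    rw [prod_mul_distrib, ← map_prod C, ← mul_assoc, ← C_mul]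
    have h1 := weight_eq r (u : ℂ) huC hr T σ
    rw [hT.2] at h1
    rw [h1]
    unfold GG
    split_ifs with h0
    · rw [h0, zpow_zero, C_1, one_mul, zero_smul, add_zero]
    · rw [zero_add, smul_eq_C_mul]
  obtain ⟨P, Z', hP, hZ', hcrit'⟩ := exists_crit_near (h.mono_left hn) f hfd Z₁ (by
    intro z hz
    rw [hF]
    exact critPt_smul _ c hc z (hcrit₁ z hz))
  exact ⟨P, Z', hP, hZ'.trans hZ₁, hcrit'⟩

end Pool.Agent.Helper63.N3
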