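import Pool.Agent.Helper24.SQ.Main
import Pool.Agent.Helper16.N3.Proj
import Pool.Agent.Helper63.N3.Limit

/-!
# The separable polynomial as a limit of projections of the permanent (scalar labels)

`ρ` is the set of rows, numbered by `r x < p`; the columns are the numbers smaller than `2 p`.
The variable `X (some (k, x))`, `k < p`, is placed at the position `(x, r x + k)`.
-/

set_option autoImplicit false
set_option linter.unusedSectionVars false

namespace Pool.Agent.Helper63.N3S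

open Finset MvPolynomial Pool.Agent.Helper24.SQ Pool.Agent.Helper63.N3

/-! ### bits -/

/-- Bits. -/
def bt (b n : ℕ) : ℕ := n / 2 ^ b % 2

theorem bt_le (b n : ℕ) : bt b n ≤ 1 := by
  unfold bt
  omega

theorem sum_bits (Q n : ℕ) : ∑ b : Fin Q, 2 ^ (b : ℕ) * bt b n = n % 2 ^ Q := by
  induction Q with
  | zero => simp [Nat.mod_one]
  | succ Q ih =>
    rw [Fin.sum_univ_castSucc]
    simp only [Fin.val_castSucc, Fin.val_last]
    rw [ih, Nat.mod_pow_succ]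
    rfl

/-- The weights of the polarisation. -/
noncomputable def ww (Q : ℕ) (j : Fin (Q * Q)) : ℝ :=
  2 ^ ((finProdFinEquiv.symm j).1 : ℕ) * 2 ^ ((finProdFinEquiv.symm j).2 : ℕ) / 2 -
    if (finProdFinEquiv.symm j).1 = (finProdFinEquiv.symm j).2 then
      (∑ b : Fin Q, 2 ^ (b : ℕ)) * 2 ^ ((finProdFinEquiv.symm j).1 : ℕ) / 4 else 0

theorem polar (Q : ℕ) (x : Fin Q → ℝ) :
    ∑ j : Fin (Q * Q), ww Q j * (x (finProdFinEquiv.symm j).1 + x (finProdFinEquiv.symm j).2) ^ 2 =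
      (∑ b : Fin Q, 2 ^ (b : ℕ) * x b) ^ 2 := by
  unfold ww
  rw [Equiv.sum_comp (finProdFinEquiv (m := Q) (n := Q)).symm (fun q : Fin Q × Fin Q =>
    ((2 : ℝ) ^ (q.1 : ℕ) * 2 ^ (q.2 : ℕ) / 2 - if q.1 = q.2 then
      (∑ b : Fin Q, (2 : ℝ) ^ (b : ℕ)) * 2 ^ (q.1 : ℕ) / 4 else 0) * (x q.1 + x q.2) ^ 2),
    Fintype.sum_prod_type]
  have h1 : ∀ b b' : Fin Q, ((2 : ℝ) ^ (b : ℕ) * 2 ^ (b' : ℕ) / 2 - if b = b' then
      (∑ b : Fin Q, (2 : ℝ) ^ (b : ℕ)) * 2 ^ (b : ℕ) / 4 else 0) * (x b + x b') ^ 2 =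
      (2 ^ (b : ℕ) * x b) * (2 ^ (b' : ℕ) * x b') + (2 ^ (b : ℕ) * x b ^ 2) * (2 ^ (b' : ℕ) / 2) +
      (2 ^ (b : ℕ) / 2) * (2 ^ (b' : ℕ) * x b' ^ 2) -
      if b = b' then (∑ b : Fin Q, (2 : ℝ) ^ (b : ℕ)) * (2 ^ (b : ℕ) * x b ^ 2) else 0 := by
    intro b b'
    split_ifs with h
    · subst h; ring
    · ring
  simp_rw [h1, sum_sub_distrib, sum_add_distrib, ← mul_sum, ← sum_mul]
  simp only [sum_ite_eq, mem_univ, if_true]
  rw [← mul_sum]
  rw [← sum_div]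
  ring

section

variable {p : ℕ} {ρ : Type} [Fintype ρ] [DecidableEq ρ]

/-- The exponent. -/
def EE (S : Finset (ρ × Fin p)) : ℤ :=
  (S.card : ℤ) * ∑ q ∈ S, ((q.2 : ℕ) : ℤ) ^ 2 - (∑ q ∈ S, ((q.2 : ℕ) : ℤ)) ^ 2

theorem two_EE (S : Finset (ρ × Fin p)) :
    2 * EE S = ∑ q : S, ∑ q' : S, (((q.1.2 : ℕ) : ℤ) - ((q'.1.2 : ℕ) : ℤ)) ^ 2 := by
  rw [lagrange (fun q : S => ((q.1.2 : ℕ) : ℤ)), Fintype.card_coe]
  unfold EE
  rw [← sum_coe_sort S (fun q => ((q.2 : ℕ) : ℤ) ^ 2), ← sum_coe_sort S (fun q => ((q.2 : ℕ) : ℤ))]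

theorem EE_nonneg (S : Finset (ρ × Fin p)) : 0 ≤ EE S := by
  have h := two_EE S
  have : 0 ≤ ∑ q : S, ∑ q' : S, (((q.1.2 : ℕ) : ℤ) - ((q'.1.2 : ℕ) : ℤ)) ^ 2 :=
    sum_nonneg fun x _ => sum_nonneg fun y _ => sq_nonneg _
  omega

theorem EE_eq_zero (S : Finset (ρ × Fin p)) (h : EE S = 0) {q q' : ρ × Fin p} (hq : q ∈ S)
    (hq' : q' ∈ S) : q.2 = q'.2 := by
  have h1 := two_EE S
  rw [h, mul_zero] at h1
  have h3 := (sum_eq_zero_iff_of_nonneg (fun x _ => sum_nonneg fun y _ =>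
    sq_nonneg _)).1 h1.symm ⟨q, hq⟩ (mem_univ _)
  have h4 := (sum_eq_zero_iff_of_nonneg (fun y _ => sq_nonneg _)).1 h3 ⟨q', hq'⟩ (mem_univ _)
  have h5 := pow_eq_zero_iff (two_ne_zero) |>.1 h4
  exact Fin.ext (by simp only at h5; omega)

/-- The monomial of a partial matching. -/
noncomputable def GG (S : Finset (ρ × Fin p)) : MvPolynomial (Option (Fin p × ρ)) ℂ :=
  ∏ q ∈ S, X (some (q.2, q.1))

/-- The position of a variable. -/
def co (r : ρ → ℕ) (hr : ∀ x, r x < p) (x : ρ) (k : Fin p) : Fin (2 * p) :=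
  ⟨r x + k, by have := hr x; have := k.2; omega⟩

theorem co_injective (r : ρ → ℕ) (hr : ∀ x, r x < p) (x : ρ) : Function.Injective (co r hr x) := by
  intro k k' h
  have := congrArg Fin.val h
  simp only [co] at this
  exact Fin.ext (by omega)

theorem mem_match {R Λ C' : Type} [Fintype R] [Fintype Λ] (c : R → Λ → C') (s : ℕ)
    (S : Finset (R × Λ)) : S ∈ Helper16.N3.match' c s ↔ S.card = s ∧
      Set.InjOn Prod.fst (S : Set (R × Λ)) ∧
        Set.InjOn (fun q : R × Λ => c q.1 q.2) (S : Set (R × Λ)) := by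
  unfold Helper16.N3.match'
  simp only [Finset.mem_filter, Finset.mem_powersetCard, Finset.subset_univ, true_and]

/-- The separable polynomial. -/
noncomputable def sepPoly (p s : ℕ) (ρ : Type) [Fintype ρ] [DecidableEq ρ] :
    MvPolynomial (Option (Fin p × ρ)) ℂ :=
  ∑ k : Fin p, ∑ T ∈ powersetCard s (univ : Finset ρ), ∏ x ∈ T, X (some (k, x))

theorem sepPoly_eq (r : ρ → ℕ) (hr : ∀ x, r x < p) (hinj : Function.Injective r) (s : ℕ)
    (hs : 1 ≤ s) : sepPoly p s ρ =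
      ∑ S ∈ Helper16.N3.match' (co r hr) s, if EE S = 0 then GG S else 0 := by
  classical
  unfold sepPoly
  rw [← sum_product']
  refine sum_of_injOn (fun q : Fin p × Finset ρ => q.2.image fun x => (x, q.1)) ?_ ?_ ?_ ?_
  · rintro ⟨k, T⟩ hT ⟨k', T'⟩ hT' h
    simp only [coe_product, Set.mem_prod, mem_coe, mem_powersetCard] at hT hT'
    simp only at h
    obtain ⟨x, hx⟩ : T.Nonempty := card_pos.1 (by omega)
    have h1 : (x, k) ∈ T'.image fun x => (x, k') := by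
      rw [← h]
      exact mem_image_of_mem _ hx
    rw [mem_image] at h1
    obtain ⟨y, _, hy⟩ := h1
    rw [Prod.mk.injEq] at hy
    obtain ⟨_, rfl⟩ := hy
    congr 1
    exact image_injective (fun x y h => (Prod.mk.inj h).1) h
  · rintro ⟨k, T⟩ hT
    simp only [coe_product, Set.mem_prod, mem_coe, mem_powersetCard] at hT
    rw [mem_coe, mem_match]
    refine ⟨?_, ?_, ?_⟩
    · simp only
      rw [card_image_of_injective _ (fun x y h => (Prod.mk.inj h).1)]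
      exact hT.2.2
    · rintro ⟨x, k₁⟩ h1 ⟨y, k₂⟩ h2 h
      rw [mem_coe, mem_image] at h1 h2
      obtain ⟨x', _, hx'⟩ := h1
      obtain ⟨y', _, hy'⟩ := h2
      rw [Prod.mk.injEq] at hx' hy'
      simp only at h
      rw [← hx'.2, ← hy'.2, h]
    · rintro ⟨x, k₁⟩ h1 ⟨y, k₂⟩ h2 h
      rw [mem_coe, mem_image] at h1 h2
      obtain ⟨x', _, hx'⟩ := h1
      obtain ⟨y', _, hy'⟩ := h2
      rw [Prod.mk.injEq] at hx' hy'
      simp only [co, Fin.mk.injEq] at h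
      have h3 : k₁ = k₂ := by rw [← hx'.2, ← hy'.2]
      subst h3
      rw [Prod.mk.injEq]
      exact ⟨hinj (by omega), rfl⟩
  · intro S hS hS'
    rw [mem_match] at hS
    rw [if_neg]
    intro h0
    apply hS'
    obtain ⟨q₀, hq₀⟩ : S.Nonempty := card_pos.1 (by omega)
    refine ⟨(q₀.2, S.image Prod.fst), ?_, ?_⟩
    · simp only [coe_product, Set.mem_prod, mem_coe, mem_powersetCard]
      refine ⟨mem_univ _, subset_univ _, ?_⟩
      rw [card_image_of_injOn hS.2.1]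
      exact hS.1
    · ext ⟨x, k⟩
      simp only [mem_image, Prod.mk.injEq]
      constructor
      · rintro ⟨y, ⟨q, hq, rfl⟩, rfl, rfl⟩
        rw [EE_eq_zero S h0 hq₀ hq]
        exact hq
      · intro h
        exact ⟨x, ⟨(x, k), h, rfl⟩, rfl, EE_eq_zero S h0 hq₀ h⟩
  · rintro ⟨k, T⟩ hT
    simp only [mem_product, mem_powersetCard] at hT
    rw [if_pos]
    · unfold GG
      rw [prod_image fun x _ y _ h => (Prod.mk.inj h).1]
    · unfold EE
      rw [sum_image fun x _ y _ h => (Prod.mk.inj h).1, sum_image fun x _ y _ h => (Prod.mk.inj h).1,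
        card_image_of_injective _ (fun x y h => (Prod.mk.inj h).1)]
      simp only [sum_const, nsmul_eq_mul]
      ring

/-- Increments on the rows. -/
def aa (Q : ℕ) (r : ρ → ℕ) (x : ρ) (j : Fin (Q * Q)) : ℕ :=
  (1 - bt (finProdFinEquiv.symm j).1 (r x)) + (1 - bt (finProdFinEquiv.symm j).2 (r x))

/-- Increments on the columns. -/
def bb (Q : ℕ) (c : Fin (2 * p)) (j : Fin (Q * Q)) : ℕ :=
  bt (finProdFinEquiv.symm j).1 c + bt (finProdFinEquiv.symm j).2 c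

/-- The weight functions. -/
noncomputable def ff (Q s : ℕ) (T : ℝ) (j : Fin (Q * Q)) (K : ℕ) : ℝ :=
  Real.exp (T * (ww Q j * ((K : ℝ) - 2 * s) ^ 2))

theorem weight_eq (Q : ℕ) (T : ℝ) (r : ρ → ℕ) (hr : ∀ x, r x < p) (hQ : 2 * p ≤ 2 ^ Q)
    (S : Finset (ρ × Fin p)) :
    (∏ j, ff Q S.card T j (∑ q ∈ S, (aa Q r q.1 j + bb Q (co r hr q.1 q.2) j))) *
      ∏ q ∈ S, Real.exp (-T * (S.card * (((q.2 : ℕ) : ℝ)) ^ 2)) = Real.exp (-T * (EE S : ℝ)) := by
  unfold ff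
  rw [← Real.exp_sum, ← Real.exp_sum, ← Real.exp_add]
  congr 1
  -- the excess of the bits
  set x : Fin Q → ℝ := fun b => ∑ q ∈ S, ((bt b (co r hr q.1 q.2) : ℝ) - (bt b (r q.1) : ℝ))
    with hx
  have h1 : ∀ j : Fin (Q * Q), ((∑ q ∈ S, (aa Q r q.1 j + bb Q (co r hr q.1 q.2) j) : ℕ) : ℝ) -
      2 * S.card = x (finProdFinEquiv.symm j).1 + x (finProdFinEquiv.symm j).2 := by
    intro j
    have h2 : ∀ q ∈ S, ((aa Q r q.1 j + bb Q (co r hr q.1 q.2) j : ℕ) : ℝ) = 2 +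
        (((bt (finProdFinEquiv.symm j).1 (co r hr q.1 q.2) : ℝ) -
          (bt (finProdFinEquiv.symm j).1 (r q.1) : ℝ)) +
        ((bt (finProdFinEquiv.symm j).2 (co r hr q.1 q.2) : ℝ) -
          (bt (finProdFinEquiv.symm j).2 (r q.1) : ℝ))) := by
      intro q _
      unfold aa bb
      rw [Nat.cast_add, Nat.cast_add, Nat.cast_add, Nat.cast_sub (bt_le _ _),
        Nat.cast_sub (bt_le _ _), Nat.cast_one]
      ring
    rw [Nat.cast_sum, sum_congr rfl h2, sum_add_distrib, sum_const, nsmul_eq_mul, sum_add_distrib]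
    ring
  simp_rw [h1]
  rw [← mul_sum, polar]
  have h3 : ∑ b : Fin Q, 2 ^ (b : ℕ) * x b = ∑ q ∈ S, ((q.2 : ℕ) : ℝ) := by
    rw [hx]
    simp only [mul_sum]
    rw [sum_comm]
    refine sum_congr rfl fun q _ => ?_
    simp only [mul_sub]
    rw [sum_sub_distrib]
    have h4 := sum_bits Q (co r hr q.1 q.2 : ℕ)
    have h5 := sum_bits Q (r q.1)
    have h6 := hr q.1
    rw [Nat.mod_eq_of_lt (by have := (co r hr q.1 q.2).2; omega)] at h4
    rw [Nat.mod_eq_of_lt (by omega)] at h5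
    have h7 : ∑ b : Fin Q, (2 : ℝ) ^ (b : ℕ) * (bt b (co r hr q.1 q.2) : ℝ) =
        ((co r hr q.1 q.2 : ℕ) : ℝ) := by
      conv_rhs => rw [← h4]
      push_cast
      rfl
    have h8 : ∑ b : Fin Q, (2 : ℝ) ^ (b : ℕ) * (bt b (r q.1) : ℝ) = ((r q.1 : ℕ) : ℝ) := by
      conv_rhs => rw [← h5]
      push_cast
      rfl
    rw [h7, h8]
    simp [co]
  rw [h3]
  unfold EE
  rw [← mul_sum, ← mul_sum]
  push_cast
  ring

theorem limit {s n m Q : ℕ} (r : ρ → ℕ) (hr : ∀ x, r x < p) (hinj : Function.Injective r)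
    (hs : 1 ≤ s) (hQ1 : 1 ≤ Q) (hQ : 2 * p ≤ 2 ^ Q)
    (hn : 3 * ((Fintype.card ρ + 2 * p) * (Q * Q * 2 + 1) + 2 * s * (Q * Q) * 2) +
      2 * s * (Q * Q) * 2 ≤ n)
    (h : BorderRep n m) (ell : MvPolynomial (Option (Fin p × ρ)) ℂ)
    (hell : ell.totalDegree ≤ 1) (Z : Finset (Option (Fin p × ρ) → ℂ))
    (hZ : ∀ z ∈ Z, CritPt (ell + sepPoly p s ρ) z) :
    ∃ (P : MvPolynomial (Option (Fin p × ρ)) ℂ) (Z' : Finset (Option (Fin p × ρ) → ℂ)),
      DetRep P m ∧ Z'.card = Z.card ∧ ∀ z ∈ Z', CritPt P z := by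
  classical
  let κ : Type := {S // S ∈ Helper16.N3.match' (co r hr) s}
  obtain ⟨ε, hε, H⟩ := crit_persist (ell + sepPoly p s ρ) (fun q : κ => GG q.1) Z hZ
  obtain ⟨u, hu0, hu1, huε⟩ : ∃ u : ℝ, 0 < u ∧ u < 1 ∧ u < ε :=
    ⟨min (1 / 2) (ε / 2), by positivity, lt_of_le_of_lt (min_le_left _ _) (by norm_num),
      lt_of_le_of_lt (min_le_right _ _) (by linarith)⟩
  set T : ℝ := -Real.log u with hT
  have hT0 : 0 < T := by
    rw [hT]
    have := Real.log_neg hu0 hu1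
    linarith
  have hTu : Real.exp (-T) = u := by
    rw [hT, neg_neg, Real.exp_log hu0]
  obtain ⟨Z₁, hZ₁, hcrit₁⟩ := H (fun q => if EE q.1 = 0 then 0 else
    ((Real.exp (-T * (EE q.1 : ℝ)) : ℝ) : ℂ)) (by
      intro q
      split_ifs with h0
      · simpa using hε
      · rw [Complex.norm_real, Real.norm_eq_abs, Real.abs_exp]
        have h1 : 1 ≤ EE q.1 := by
          have := lt_of_le_of_ne (EE_nonneg q.1) (Ne.symm h0)
          omega
        have h2 : (1 : ℝ) ≤ (EE q.1 : ℝ) := by exact_mod_cast h1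
        refine lt_of_le_of_lt ?_ huε
        rw [← hTu]
        apply Real.exp_le_exp.2
        nlinarith)
  obtain ⟨M, hM⟩ : ∃ M, M = 3 * ((Fintype.card ρ + Fintype.card (Fin (2 * p))) * (Q * Q * 2 + 1) +
    2 * s * (Q * Q) * 2) + 2 * s * (Q * Q) * 2 := ⟨_, rfl⟩
  obtain ⟨e, c, hc, hE⟩ := Helper16.N3.proj ρ (Fin p) (Fin (2 * p)) (co r hr) (co_injective r hr)
    (Q * Q) 2 s M (Nat.mul_pos hQ1 hQ1) (by norm_num) hs (aa Q r)
    (fun x j => by unfold aa; omega) (bb Q) (fun c j => by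
      unfold bb
      have := bt_le (finProdFinEquiv.symm j).1 c
      have := bt_le (finProdFinEquiv.symm j).2 c
      omega) (fun j K => ((ff Q s T j K : ℝ) : ℂ))
    (fun j K => by
      unfold ff
      exact_mod_cast (Real.exp_pos _).ne') hM
  have hMn : M ≤ n := by
    rw [hM, Fintype.card_fin]
    exact hn
  set w : ℂ := ∏ j : Fin (Q * Q), ((ff Q s T j 0 : ℝ) : ℂ) with hw
  have hw0 : w ≠ 0 := by
    rw [hw, prod_ne_zero_iff]
    intro j _
    unfold ff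
    exact_mod_cast (Real.exp_pos _).ne'
  set Y : Option (ρ × Fin p) → MvPolynomial (Option (Fin p × ρ)) ℂ := fun o => o.elim (C w⁻¹ * ell)
    fun q => C ((Real.exp (-T * (s * (((q.2 : ℕ) : ℝ)) ^ 2)) : ℝ) : ℂ) * X (some (q.2, q.1)) with hY
  set f : Fin M × Fin M → MvPolynomial (Option (Fin p × ρ)) ℂ := fun q =>
    (e q.1 q.2).elim (algebraMap ℂ _) Y with hf
  have hfd : ∀ q, (f q).totalDegree ≤ 1 := by
    intro q
    simp only [hf]
    rcases e q.1 q.2 with v | q'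
    · simp only [Sum.elim_inl, algebraMap_eq, totalDegree_C, zero_le]
    · rcases q' with _ | q''
      · simp only [Sum.elim_inr, hY, Option.elim_none]
        refine (totalDegree_mul _ _).trans ?_
        rw [totalDegree_C, zero_add]
        exact hell
      · simp only [Sum.elim_inr, hY, Option.elim_some]
        refine (totalDegree_mul _ _).trans ?_
        rw [totalDegree_C, zero_add, totalDegree_X]
  have hF : aeval f (permPoly M) = C c * (ell + sepPoly p s ρ + ∑ q : κ,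
      (if EE q.1 = 0 then 0 else ((Real.exp (-T * (EE q.1 : ℝ)) : ℝ) : ℂ)) • GG q.1) := by
    rw [aeval_permPoly]
    refine (hE (MvPolynomial (Option (Fin p × ρ)) ℂ) Y).trans ?_
    rw [algebraMap_eq]
    congr 1
    have h1 : Y none = C w⁻¹ * ell := rfl
    rw [h1, ← mul_assoc, ← C_mul, mul_inv_cancel₀ hw0, C_1, one_mul, add_assoc]
    congr 1
    rw [Finset.sum_coe_sort (Helper16.N3.match' (co r hr) s) (fun S =>
      (if EE S = 0 then 0 else ((Real.exp (-T * (EE S : ℝ)) : ℝ) : ℂ)) •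
        (GG S : MvPolynomial (Option (Fin p × ρ)) ℂ))]
    rw [sepPoly_eq r hr hinj s hs, ← sum_add_distrib]
    refine sum_congr rfl fun S hS => ?_
    have hS' : S.card = s := ((mem_match _ _ _).1 hS).1
    have h2 : ∏ q ∈ S, Y (some q) =
        C ((∏ q ∈ S, Real.exp (-T * (s * (((q.2 : ℕ) : ℝ)) ^ 2)) : ℝ) : ℂ) * GG S := by
      unfold GG
      rw [Complex.ofReal_prod, map_prod, ← prod_mul_distrib]
      rfl
    rw [h2, ← mul_assoc, ← C_mul, ← Complex.ofReal_prod, ← Complex.ofReal_mul]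
    have h3 := weight_eq Q T r hr hQ S
    rw [hS'] at h3
    rw [h3]
    split_ifs with h0
    · rw [h0, Int.cast_zero, mul_zero, Real.exp_zero, Complex.ofReal_one, C_1, one_mul, zero_smul,
        add_zero]
    · rw [zero_add, smul_eq_C_mul]
  obtain ⟨P, Z', hP, hZ', hcrit'⟩ := exists_crit_near (h.mono_left hMn) f hfd Z₁ (by
    intro z hz
    rw [hF]
    exact critPt_smul _ c hc z (hcrit₁ z hz))
  exact ⟨P, Z', hP, hZ'.trans hZ₁, hcrit'⟩

end

end Pool.Agent.Helper63.N3S
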